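import Pool.Agent.H33.TX3
import Pool.Agent.H33.GrothDefs

set_option autoImplicit false

open Pool.Agent.H33 Pool.Agent.H33.GrothDefs

namespace Pool.Agent.Results.MP_302921_gt.DiamondCex

/-- `Y` is t-embedded in `Z`: there is a continuous extender `C_p(Y) → C_p(Z)` -/
def TEmbedded (Z : Type) [TopologicalSpace Z] (Y : Set Z) : Prop :=
  ∃ φ : Cp Y → Cp Z, Continuous φ ∧ ∀ (f : Cp Y) (y : Y), (φ f).1 y = f.1 y

/-- every closed subspace is t-embedded -/
def TExtendial (Z : Type) [TopologicalSpace Z] : Prop :=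
  ∀ Y : Set Z, IsClosed Y → TEmbedded Z Y

theorem result (h : DiaDefs.Diamond) :
    ∃ (X : Type) (_ : TopologicalSpace X), CompactSpace X ∧ T2Space X ∧
      TopologicalSpace.SeparableSpace X ∧ ¬ TopologicalSpace.MetrizableSpace X ∧
      TExtendial (X × X) := by
  classical
  obtain ⟨X, τ, a, b, c, d, e⟩ := TX3.main h
  refine ⟨X, τ, a, b, c, d, fun Y hY => ?_⟩
  obtain ⟨Φ, h1, h2⟩ := e Y hY
  let E : Cp Y → X × X → ℝ := fun f z => if h : z ∈ Y then f.1 ⟨z, h⟩ else 0
  have e1 : ∀ f (y : Y), E f y = f.1 y := fun f y => dif_pos y.2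
  have e2 : ∀ f, ContinuousOn (E f) Y := fun f => continuousOn_iff_continuous_domRestrict.2
    (f.2.congr fun y => (e1 f y).symm)
  have e3 : Continuous E := continuous_pi fun z => by
    simp only [E]
    split_ifs
    · exact (continuous_apply _).comp continuous_subtype_val
    · exact continuous_const
  exact ⟨fun f => ⟨Φ (E f), (h2 _ (e2 f) fun _ h => h.elim).1⟩, (h1.comp e3).subtype_mk _,
    fun f y => ((h2 _ (e2 f) fun _ h => h.elim).2 y.2).trans (e1 f y)⟩

end Pool.Agent.Results.MP_302921_gt.DiamondCex
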